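import Mathlib
import Pool.Agent.K4H31.MZ.DZero

set_option autoImplicit false

/-! Pieces for MP_f3dc73_nt (each a `Prop`; to be proved as `theorem P1_holds : P1` etc.). -/

namespace Pool.Agent.K4H66.MV

open Polynomial

/-- P1: in a graded factorial domain an ideal of the kind of the kernel of the ungraded period map is principal. -/
def P1 : Prop := ∀ (R : Type) [CommRing R] [IsDomain R] [UniqueFactorizationMonoid R] (Ψ : R →+* ℝ[X]),
  Function.Injective Ψ → (∀ (x : R) (k : ℕ), ∃ y : R, Ψ y = monomial k ((Ψ x).coeff k)) →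
  ∃ F : R, ∀ x : R, (Ψ x).eval 1 = 0 ↔ F ∣ x

/-- P2: from rational to algebraic coefficients. -/
def P2 : Prop := ∀ (A : Type) [CommRing A] [Algebra ℚ A] (J : Type) (x : J → A),
  Function.Bijective (MvPolynomial.aeval x : MvPolynomial J ℚ →ₐ[ℚ] A) →
  ∀ (ν : A →ₐ[ℚ] ℝ), Function.Injective ν → ∀ (ι : Type) (e : ι → A), LinearIndependent ℚ e →
  ∀ c : ι →₀ ℂ, (∀ i, IsAlgebraic ℚ (c i)) → (c.sum fun i a => a * ((ν (e i) : ℝ) : ℂ)) = 0 → c = 0

/-- P4: the shuffle algebra is a polynomial algebra. -/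
def P4 : Prop := ∃ (J : Type) (x : J → K4H31.MZ.D0.Rg),
  Function.Bijective (MvPolynomial.aeval x : MvPolynomial J ℚ →ₐ[ℚ] K4H31.MZ.D0.Rg)

end Pool.Agent.K4H66.MV
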