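import Pool.Agent.K4H54.MZ.Main
import Pool.Agent.K4H66.MV.Spec

set_option autoImplicit false

/-! The ring `H`, and the graded period map with values in `ℝ[X]`. -/

namespace Pool.Agent.K4H66.MV

open Polynomial Finset Pool.Agent.K4H54.MZ Pool.Agent.K4H31.MZ H569R3.Hall

noncomputable section

/-- product of two basis elements -/
def Mb (p q : Bas) : Bas →₀ ℚ := ∑ S ∈ powersetCard p.2.length
  (univ : Finset (Fin (p.2.length + q.2.length))), Finsupp.single (p.1 + q.1, merge p.2 q.2 S) (1 : ℚ)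

/-- the product as a bilinear map -/
def mulB : (Bas →₀ ℚ) →ₗ[ℚ] (Bas →₀ ℚ) →ₗ[ℚ] (Bas →₀ ℚ) :=
  Finsupp.linearCombination ℚ fun p => Finsupp.linearCombination ℚ fun q => Mb p q

lemma mulB_apply (f g : Bas →₀ ℚ) : mulB f g = mulH f g := by
  unfold mulB mulH
  rw [Finsupp.linearCombination_apply, Finsupp.sum, LinearMap.sum_apply]
  refine Finset.sum_congr rfl fun p _ => ?_
  rw [LinearMap.smul_apply, Finsupp.linearCombination_apply, Finsupp.smul_sum]
  refine Finset.sum_congr rfl fun q _ => ?_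
  exact smul_smul _ _ _

lemma mulH_single (p q : Bas) : mulH (Finsupp.single p 1) (Finsupp.single q 1) = Mb p q := by
  rw [← mulB_apply]
  unfold mulB
  rw [Finsupp.linearCombination_single, one_smul, Finsupp.linearCombination_single, one_smul]

lemma bil_ext {M : Type} [AddCommGroup M] [Module ℚ M] {f g : (Bas →₀ ℚ) →ₗ[ℚ] (Bas →₀ ℚ) →ₗ[ℚ] M}
    (h : ∀ p q, f (Finsupp.single p 1) (Finsupp.single q 1) = g (Finsupp.single p 1) (Finsupp.single q 1)) :
    f = g := by
  refine Finsupp.lhom_ext' fun p => LinearMap.ext_ring ?_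
  refine Finsupp.lhom_ext' fun q => LinearMap.ext_ring ?_
  exact h p q

variable {per : (Bas →₀ ℚ) →ₗ[ℚ] ℝ}

/-- the graded period map -/
def Phi (per : (Bas →₀ ℚ) →ₗ[ℚ] ℝ) : (Bas →₀ ℚ) →ₗ[ℚ] ℝ[X] :=
  Finsupp.linearCombination ℚ fun p => monomial (wt p) (per (Finsupp.single p 1))

lemma Phi_single (p : Bas) : Phi per (Finsupp.single p 1) = monomial (wt p) (per (Finsupp.single p 1)) := by
  unfold Phi
  rw [Finsupp.linearCombination_single, one_smul]

lemma Phi_eq (x : Bas →₀ ℚ) : Phi per x = ∑ p ∈ x.support, monomial (wt p) (per (Finsupp.single p (x p))) := by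
  unfold Phi
  rw [Finsupp.linearCombination_apply, Finsupp.sum]
  refine Finset.sum_congr rfl fun p _ => ?_
  have e : (Finsupp.single p (x p) : Bas →₀ ℚ) = x p • Finsupp.single p 1 := by
    rw [Finsupp.smul_single, smul_eq_mul, mul_one]
  rw [e, map_smul, ← smul_monomial]

lemma per_eq (x : Bas →₀ ℚ) : per x = ∑ p ∈ x.support, per (Finsupp.single p (x p)) := by
  conv_lhs => rw [← Finsupp.sum_single x]
  rw [Finsupp.sum, map_sum]

lemma Phi_H {w : ℕ} {x : Bas →₀ ℚ} (hx : x ∈ H w) : Phi per x = monomial w (per x) := by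
  rw [Phi_eq, per_eq, map_sum]
  refine Finset.sum_congr rfl fun p hp => ?_
  rw [mem_H.1 hx p hp]

lemma Phi_eval (x : Bas →₀ ℚ) : (Phi per x).eval 1 = per x := by
  rw [Phi_eq, per_eq, eval_finset_sum]
  refine Finset.sum_congr rfl fun p _ => ?_
  rw [eval_monomial, one_pow, mul_one]

/-- homogeneous components -/
def cmp (k : ℕ) (x : Bas →₀ ℚ) : Bas →₀ ℚ := x.filter fun p => wt p = k

lemma cmp_mem (k : ℕ) (x : Bas →₀ ℚ) : cmp k x ∈ H k := by
  rw [mem_H]
  intro p hp
  unfold cmp at hp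
  rw [Finsupp.support_filter, Finset.mem_filter] at hp
  exact hp.2

lemma Phi_coeff (x : Bas →₀ ℚ) (k : ℕ) : (Phi per x).coeff k = per (cmp k x) := by
  rw [Phi_eq, finset_sum_coeff, per_eq (cmp k x)]
  unfold cmp
  rw [Finsupp.support_filter, Finset.sum_filter]
  refine Finset.sum_congr rfl fun p _ => ?_
  rw [coeff_monomial]
  split_ifs with h
  · rw [Finsupp.filter_apply_pos (fun p => wt p = k) x h]
  · rfl

lemma Phi_cmp (x : Bas →₀ ℚ) (k : ℕ) : Phi per (cmp k x) = monomial k ((Phi per x).coeff k) := by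
  rw [Phi_H (cmp_mem k x), Phi_coeff]

lemma single_mem (p : Bas) : (Finsupp.single p 1 : Bas →₀ ℚ) ∈ H (wt p) := by
  rw [mem_H]
  intro q hq
  have := Finsupp.support_single_subset hq
  rw [Finset.mem_singleton] at this
  rw [this]

lemma Phi_mul (hper : IsPeriodMap per) (x y : Bas →₀ ℚ) : Phi per (mulH x y) = Phi per x * Phi per y := by
  have h : mulB.compr₂ (Phi per) = (LinearMap.mul ℚ ℝ[X]).compl₁₂ (Phi per) (Phi per) := by
    refine bil_ext fun p q => ?_
    rw [LinearMap.compr₂_apply, LinearMap.compl₁₂_apply, LinearMap.mul_apply', mulB_apply,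
      Phi_H (mulH_mem (single_mem p) (single_mem q)), Phi_single, Phi_single, monomial_mul_monomial,
      hper.2.1]
  have := congrArg (fun f => f x y) h
  simp only [LinearMap.compr₂_apply, LinearMap.compl₁₂_apply, LinearMap.mul_apply', mulB_apply] at this
  exact this

lemma Phi_one (hper : IsPeriodMap per) : Phi per (Finsupp.single (0, []) 1) = 1 := by
  rw [Phi_single, hper.1]
  have : wt (0, []) = 0 := by simp [wt]
  rw [this, monomial_zero_left, map_one]

/-- injectivity of the graded period map -/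
lemma Phi_inj (h : ∀ w, ∀ x ∈ H w, per x = 0 → x = 0) : Function.Injective (Phi per) := by
  rw [← LinearMap.ker_eq_bot, Submodule.eq_bot_iff]
  intro x hx
  rw [LinearMap.mem_ker] at hx
  ext p
  have h1 := Phi_coeff (per := per) x (wt p)
  rw [hx, coeff_zero] at h1
  have h2 := h _ _ (cmp_mem (wt p) x) h1.symm
  have h3 := congrArg (fun f => f p) h2
  simp only [cmp, Finsupp.coe_zero, Pi.zero_apply] at h3
  rw [Finsupp.filter_apply_pos (fun q => wt q = wt p) x rfl] at h3
  exact h3

/-- injectivity from `Q1` -/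
lemma inj_of_Q1 (hper : IsPeriodMap per) (h : Q1) : ∀ w, ∀ x ∈ H w, per x = 0 → x = 0 := by
  intro w x hx h0
  obtain ⟨φ, -, -⟩ := h
  have h1 := (φ w).finrank_eq
  rw [finrank_H] at h1
  have h2 := finrank_Z_add hper w
  rw [h1] at h2
  have hfd : FiniteDimensional ℚ (LinearMap.ker (perW hper w)) := inferInstance
  have h3 : Module.finrank ℚ (LinearMap.ker (perW hper w)) = 0 := by omega
  have h4 : LinearMap.ker (perW hper w) = ⊥ := Submodule.finrank_eq_zero.1 h3
  have h5 : (⟨x, hx⟩ : H w) ∈ LinearMap.ker (perW hper w) := by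
    rw [LinearMap.mem_ker]
    apply Subtype.ext
    rw [perW_apply]
    exact h0
  rw [h4, Submodule.mem_bot] at h5
  exact congrArg Subtype.val h5

end

end Pool.Agent.K4H66.MV
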