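import Pool.Agent.K4H66.MV.A

set_option autoImplicit false

/-! `H` as the polynomial ring over the shuffle algebra. -/

namespace Pool.Agent.K4H66.MV

open Polynomial Finset Pool.Agent.K4H54.MZ Pool.Agent.K4H31.MZ H569R3.Hall

noncomputable section

/-- the shuffle algebra -/
abbrev Sh : Type := D0.Rg

/-- a word as an element of the shuffle algebra -/
def ew (u : List ℕ) : Sh := (e u : V ℕ)

/-- the linear map `H → Sh[t]` -/
def Ti : (Bas →₀ ℚ) →ₗ[ℚ] Sh[X] := Finsupp.linearCombination ℚ fun p => monomial p.1 (ew p.2)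

lemma Ti_single (p : Bas) : Ti (Finsupp.single p 1) = monomial p.1 (ew p.2) := by
  unfold Ti
  rw [Finsupp.linearCombination_single, one_smul]

lemma Ti_Mb (p q : Bas) : Ti (Mb p q) = monomial p.1 (ew p.2) * monomial q.1 (ew q.2) := by
  unfold Mb
  rw [map_sum, monomial_mul_monomial]
  simp only [Ti_single]
  rw [← map_sum]
  congr 1
  change _ = (D0.sh (e p.2) (e q.2) : V ℕ)
  rw [D0_sh]
  rfl

lemma Ti_mul (x y : Bas →₀ ℚ) : Ti (mulH x y) = Ti x * Ti y := by
  have h : mulB.compr₂ Ti = (LinearMap.mul ℚ Sh[X]).compl₁₂ Ti Ti := by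
    refine bil_ext fun p q => ?_
    rw [LinearMap.compr₂_apply, LinearMap.compl₁₂_apply, LinearMap.mul_apply', mulB_apply, mulH_single,
      Ti_Mb, Ti_single, Ti_single]
  have := congrArg (fun f => f x y) h
  simp only [LinearMap.compr₂_apply, LinearMap.compl₁₂_apply, LinearMap.mul_apply', mulB_apply] at this
  exact this

lemma Ti_one : Ti (Finsupp.single (0, []) 1) = 1 := by
  rw [Ti_single]
  rfl

/-- coefficients -/
def cf (f : Sh[X]) (i : ℕ) (u : List ℕ) : ℚ := DFunLike.coe (F := List ℕ →₀ ℚ) (f.coeff i) u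

lemma cf_add (f g : Sh[X]) (i : ℕ) (u : List ℕ) : cf (f + g) i u = cf f i u + cf g i u := by
  unfold cf
  rw [coeff_add]
  rfl

lemma cf_smul (c : ℚ) (f : Sh[X]) (i : ℕ) (u : List ℕ) : cf (c • f) i u = c * cf f i u := by
  unfold cf
  rw [coeff_smul]
  rfl

lemma cf_mono (j : ℕ) (v : List ℕ) (i : ℕ) (u : List ℕ) :
    cf (monomial j (ew v)) i u = if (j, v) = (i, u) then 1 else 0 := by
  unfold cf
  rw [coeff_monomial]
  by_cases h : j = i
  · subst h
    rw [if_pos rfl]
    change (Finsupp.single v (1 : ℚ)) u = _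
    rw [Finsupp.single_apply]
    simp
  · rw [if_neg h, if_neg (by simp [h])]
    rfl

lemma cf_Ti (x : Bas →₀ ℚ) (i : ℕ) (u : List ℕ) : cf (Ti x) i u = x (i, u) := by
  refine Finsupp.induction_linear (motive := fun x => cf (Ti x) i u = x (i, u)) x ?_ ?_ ?_
  · rw [map_zero]; rfl
  · intro f g hf hg
    rw [map_add, cf_add, hf, hg]; rfl
  · intro p c
    have e1 : (Finsupp.single p c : Bas →₀ ℚ) = c • Finsupp.single p 1 := by
      rw [Finsupp.smul_single, smul_eq_mul, mul_one]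
    rw [e1, map_smul, cf_smul, Ti_single, cf_mono, Finsupp.smul_apply, Finsupp.single_apply, smul_eq_mul]

lemma Ti_inj : Function.Injective Ti := by
  intro x y h
  ext p
  rw [show p = (p.1, p.2) from rfl, ← cf_Ti, ← cf_Ti, h]

lemma Ti_surj : Function.Surjective Ti := by
  intro f
  induction f using Polynomial.induction_on' with
  | add f g hf hg =>
    obtain ⟨x, rfl⟩ := hf
    obtain ⟨y, rfl⟩ := hg
    exact ⟨x + y, map_add _ _ _⟩
  | monomial i a =>
    refine V_induction (p := fun a : V ℕ => ∃ x, Ti x = monomial (R := Sh) i a) a ?_ ?_ ?_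
    · refine ⟨0, ?_⟩
      rw [map_zero]
      exact (map_zero (monomial i : Sh →ₗ[Sh] Sh[X])).symm
    · rintro a b ⟨x, hx⟩ ⟨y, hy⟩
      refine ⟨x + y, ?_⟩
      rw [map_add, hx, hy]
      exact (map_add (monomial i : Sh →ₗ[Sh] Sh[X]) a b).symm
    · intro c w
      refine ⟨c • Finsupp.single (i, w) 1, ?_⟩
      rw [map_smul, Ti_single, smul_monomial]
      rfl

/-- `H ≃ Sh[t]` -/
def TE : (Bas →₀ ℚ) ≃ₗ[ℚ] Sh[X] := LinearEquiv.ofBijective Ti ⟨Ti_inj, Ti_surj⟩

lemma TE_apply (x : Bas →₀ ℚ) : TE x = Ti x := rfl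

lemma TE_symm_mul (f g : Sh[X]) : TE.symm (f * g) = mulH (TE.symm f) (TE.symm g) := by
  apply TE.injective
  rw [LinearEquiv.apply_symm_apply, TE_apply, Ti_mul, ← TE_apply, ← TE_apply, LinearEquiv.apply_symm_apply,
    LinearEquiv.apply_symm_apply]

lemma TE_symm_one : TE.symm (1 : Sh[X]) = Finsupp.single (0, []) 1 := by
  apply TE.injective
  rw [LinearEquiv.apply_symm_apply, TE_apply, Ti_one]

variable {per : (Bas →₀ ℚ) →ₗ[ℚ] ℝ}

/-- the graded period map as a ring homomorphism -/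
def Psi (hper : IsPeriodMap per) : Sh[X] →+* ℝ[X] where
  toFun f := Phi per (TE.symm f)
  map_one' := by rw [TE_symm_one, Phi_one hper]
  map_mul' f g := by rw [TE_symm_mul, Phi_mul hper]
  map_zero' := by rw [map_zero, map_zero]
  map_add' f g := by rw [map_add, map_add]

lemma Psi_apply (hper : IsPeriodMap per) (f : Sh[X]) : Psi hper f = Phi per (TE.symm f) := rfl

lemma Psi_Ti (hper : IsPeriodMap per) (x : Bas →₀ ℚ) : Psi hper (Ti x) = Phi per x := by
  rw [Psi_apply, ← TE_apply, LinearEquiv.symm_apply_apply]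

lemma Psi_inj (hper : IsPeriodMap per) (h : ∀ w, ∀ x ∈ H w, per x = 0 → x = 0) :
    Function.Injective (Psi hper) := fun f g hfg => TE.symm.injective (Phi_inj h hfg)

lemma Psi_cmp (hper : IsPeriodMap per) (f : Sh[X]) (k : ℕ) :
    ∃ g : Sh[X], Psi hper g = monomial k ((Psi hper f).coeff k) := by
  refine ⟨TE (cmp k (TE.symm f)), ?_⟩
  rw [Psi_apply, LinearEquiv.symm_apply_apply, Phi_cmp, Psi_apply]

lemma Psi_eval (hper : IsPeriodMap per) (f : Sh[X]) : (Psi hper f).eval 1 = per (TE.symm f) := Phi_eval _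

instance : NoZeroDivisors Sh[X] where
  eq_zero_or_eq_zero_of_mul_eq_zero := by
    intro f g h
    by_contra hne
    push Not at hne
    have h1 : TE.symm (f * g) = 0 := by rw [h, map_zero]
    rw [TE_symm_mul] at h1
    exact mulH_ne_zero (fun h => hne.1 (TE.symm.map_eq_zero_iff.1 h)) (fun h => hne.2 (TE.symm.map_eq_zero_iff.1 h)) h1

end

end Pool.Agent.K4H66.MV
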