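import Pool.Agent.K4H66.MV.B

set_option autoImplicit false

/-! The normalised periods. -/

namespace Pool.Agent.K4H66.MV

open Polynomial Finset Pool.Agent.K4H54.MZ Pool.Agent.K4H31.MZ H569R3.Hall

noncomputable section

instance : NoZeroDivisors Sh where
  eq_zero_or_eq_zero_of_mul_eq_zero := by
    intro a b h
    have h1 : (C a * C b : Sh[X]) = 0 := by rw [← C_mul, h, C_0]
    rcases mul_eq_zero.1 h1 with h2 | h2
    · exact Or.inl (C_eq_zero.1 h2)
    · exact Or.inr (C_eq_zero.1 h2)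

instance : Nontrivial Sh where
  exists_pair_ne := by
    refine ⟨ew [], 0, fun h => ?_⟩
    have h1 : (Finsupp.single ([] : List ℕ) (1 : ℚ)) = 0 := h
    rw [Finsupp.single_eq_zero] at h1
    exact one_ne_zero h1

instance : IsDomain Sh := NoZeroDivisors.to_isDomain Sh

variable {per : (Bas →₀ ℚ) →ₗ[ℚ] ℝ}

/-- the period of a word -/
def ro (per : (Bas →₀ ℚ) →ₗ[ℚ] ℝ) (u : List ℕ) : ℝ := per (Finsupp.single (0, u) 1)

/-- the normalised period of a word -/
def vn (per : (Bas →₀ ℚ) →ₗ[ℚ] ℝ) (u : List ℕ) : ℝ := ro per u / Real.pi ^ wt (0, u)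

lemma Psi_X (hper : IsPeriodMap per) (hpi : per (Finsupp.single (1, []) 1) = Real.pi ^ 2) :
    Psi hper X = monomial 2 (Real.pi ^ 2) := by
  have h1 : Ti (Finsupp.single (1, []) 1) = (X : Sh[X]) := by
    rw [Ti_single]
    rfl
  rw [← h1, Psi_Ti, Phi_single, hpi]
  rfl

lemma Psi_C (hper : IsPeriodMap per) (u : List ℕ) : Psi hper (C (ew u)) = monomial (wt (0, u)) (ro per u) := by
  have h1 : Ti (Finsupp.single (0, u) 1) = (C (ew u) : Sh[X]) := by
    rw [Ti_single]
    rfl
  rw [← h1, Psi_Ti, Phi_single]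
  rfl

lemma wt_eq (i : ℕ) (u : List ℕ) : wt (i, u) = 2 * i + wt (0, u) := by
  unfold wt
  simp

lemma ro_vn (u : List ℕ) : ro per u = Real.pi ^ wt (0, u) * vn per u := by
  unfold vn
  field_simp

lemma Psi_mono (hper : IsPeriodMap per) (hpi : per (Finsupp.single (1, []) 1) = Real.pi ^ 2) (i : ℕ) (u : List ℕ) :
    Psi hper (monomial i (ew u)) = monomial (wt (i, u)) (Real.pi ^ wt (i, u) * vn per u) := by
  rw [← C_mul_X_pow_eq_monomial, map_mul, map_pow, Psi_X hper hpi, Psi_C, monomial_pow, monomial_mul_monomial,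
    wt_eq i u, ro_vn]
  rw [add_comm (wt (0, u))]
  congr 1
  rw [pow_add, pow_mul]
  ring

lemma per_single (hper : IsPeriodMap per) (hpi : per (Finsupp.single (1, []) 1) = Real.pi ^ 2) (p : Bas) :
    per (Finsupp.single p 1) = Real.pi ^ wt p * vn per p.2 := by
  have h1 := Psi_mono hper hpi p.1 p.2
  rw [← Ti_single, Psi_Ti, Phi_single] at h1
  exact monomial_injective _ h1

/-- normalised period map on the shuffle algebra -/
def nu (hper : IsPeriodMap per) : Sh →+* ℝ := (evalRingHom (Real.pi)⁻¹).comp ((Psi hper).comp C)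

lemma nu_ew (hper : IsPeriodMap per) (u : List ℕ) : nu hper (ew u) = vn per u := by
  unfold nu
  rw [RingHom.comp_apply, RingHom.comp_apply, Psi_C, coe_evalRingHom, eval_monomial]
  unfold vn
  rw [inv_pow, div_eq_mul_inv]

lemma nu_smul (hper : IsPeriodMap per) (c : ℚ) (x : Sh) : nu hper (c • x) = c * nu hper x := by
  have := map_rat_smul (nu hper) c x
  rw [this, Rat.smul_def]

lemma Sh_induction {p : Sh → Prop} (x : Sh) (h0 : p 0) (hadd : ∀ f g, p f → p g → p (f + g))
    (hs : ∀ (c : ℚ) (w : List ℕ), p (c • ew w)) : p x := V_induction (p := p) x h0 hadd hs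

lemma Psi_smul (hper : IsPeriodMap per) (c : ℚ) (f : Sh[X]) : Psi hper (c • f) = c • Psi hper f := by
  rw [Psi_apply, Psi_apply, map_smul, map_smul]

lemma split (hper : IsPeriodMap per) (hpi : per (Finsupp.single (1, []) 1) = Real.pi ^ 2) (x : Sh) :
    ∃ K0 : ℕ, 1 ≤ K0 ∧ ∀ K : ℕ, K0 ≤ K → ∃ (A B : Sh[X]) (α β : ℝ), x = A.eval 1 + B.eval 1 ∧ nu hper x = α + β ∧
      Psi hper A = monomial K (Real.pi ^ K * α) ∧ Psi hper B = monomial (K - 1) (Real.pi ^ (K - 1) * β) := by
  refine Sh_induction (p := fun x => ∃ K0 : ℕ, 1 ≤ K0 ∧ ∀ K : ℕ, K0 ≤ K → ∃ (A B : Sh[X]) (α β : ℝ),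
      x = A.eval 1 + B.eval 1 ∧ nu hper x = α + β ∧ Psi hper A = monomial K (Real.pi ^ K * α) ∧
      Psi hper B = monomial (K - 1) (Real.pi ^ (K - 1) * β)) x ?_ ?_ ?_
  · refine ⟨1, le_rfl, fun K _ => ⟨0, 0, 0, 0, ?_, ?_, ?_, ?_⟩⟩ <;> simp
  · rintro f g ⟨K1, hK1, h1⟩ ⟨K2, hK2, h2⟩
    refine ⟨max K1 K2, le_max_of_le_left hK1, fun K hK => ?_⟩
    obtain ⟨A1, B1, α1, β1, a1, a2, a3, a4⟩ := h1 K ((le_max_left _ _).trans hK)
    obtain ⟨A2, B2, α2, β2, b1, b2, b3, b4⟩ := h2 K ((le_max_right _ _).trans hK)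
    refine ⟨A1 + A2, B1 + B2, α1 + α2, β1 + β2, ?_, ?_, ?_, ?_⟩
    · rw [eval_add, eval_add, a1, b1]; ring
    · rw [map_add, a2, b2]; ring
    · rw [map_add, a3, b3, ← map_add (monomial K), mul_add]
    · rw [map_add, a4, b4, ← map_add (monomial (K - 1)), mul_add]
  · intro c w
    refine ⟨wt (0, w) + 1, by omega, fun K hK => ?_⟩
    rcases Nat.even_or_odd (K - wt (0, w)) with ⟨i, hi⟩ | ⟨i, hi⟩
    · refine ⟨c • monomial i (ew w), 0, c * vn per w, 0, ?_, ?_, ?_, ?_⟩
      · rw [eval_smul, eval_monomial, one_pow, mul_one, eval_zero, add_zero]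
      · rw [nu_smul, nu_ew, add_zero]
      · rw [Psi_smul, Psi_mono hper hpi, smul_monomial, Rat.smul_def]
        have e : wt (i, w) = K := by rw [wt_eq]; omega
        rw [e]
        congr 1; ring
      · simp
    · refine ⟨0, c • monomial i (ew w), 0, c * vn per w, ?_, ?_, ?_, ?_⟩
      · rw [eval_smul, eval_monomial, one_pow, mul_one, eval_zero, zero_add]
      · rw [nu_smul, nu_ew, zero_add]
      · simp
      · rw [Psi_smul, Psi_mono hper hpi, smul_monomial, Rat.smul_def]
        have e : wt (i, w) = K - 1 := by rw [wt_eq]; omega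
        rw [e]
        congr 1; ring

/-- normalised periods of different words: no rational relations, if the graded period map is injective -/
theorem nu_inj (hper : IsPeriodMap per) (hpi : per (Finsupp.single (1, []) 1) = Real.pi ^ 2)
    (h : ∀ w, ∀ x ∈ H w, per x = 0 → x = 0) : Function.Injective (nu hper) := by
  rw [injective_iff_map_eq_zero]
  intro x hx
  obtain ⟨K0, hK0, h1⟩ := split hper hpi x
  obtain ⟨A, B, α, β, a1, a2, a3, a4⟩ := h1 K0 le_rfl
  have hβ : α ^ 2 = β ^ 2 := by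
    have : α = -β := by linarith
    rw [this]; ring
  have h2 : A * A = X * (B * B) := by
    apply Psi_inj hper h
    rw [map_mul, map_mul, map_mul, a3, a4, Psi_X hper hpi, monomial_mul_monomial, monomial_mul_monomial,
      monomial_mul_monomial]
    have e1 : 2 + (K0 - 1 + (K0 - 1)) = K0 + K0 := by omega
    rw [e1]
    congr 1
    have e2 : Real.pi ^ 2 * (Real.pi ^ (K0 - 1) * β * (Real.pi ^ (K0 - 1) * β)) =
        Real.pi ^ (2 + (K0 - 1 + (K0 - 1))) * β ^ 2 := by
      rw [pow_add, pow_add]; ring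
    rw [e2, e1, ← hβ, pow_add]
    ring
  have hA : A = 0 := by
    by_contra hA
    have hB : B ≠ 0 := by
      rintro rfl
      rw [mul_zero, mul_zero] at h2
      exact hA (mul_self_eq_zero.1 h2)
    have h3 := congrArg natDegree h2
    rw [natDegree_mul hA hA, natDegree_mul X_ne_zero (mul_ne_zero hB hB), natDegree_mul hB hB, natDegree_X] at h3
    omega
  have hB : B = 0 := by
    rw [hA, mul_zero] at h2
    rcases mul_eq_zero.1 h2.symm with h3 | h3
    · exact absurd h3 X_ne_zero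
    · exact mul_self_eq_zero.1 h3
  rw [a1, hA, hB, eval_zero, add_zero]

lemma per_nu (hper : IsPeriodMap per) (hpi : per (Finsupp.single (1, []) 1) = Real.pi ^ 2) {w : ℕ}
    {x : Bas →₀ ℚ} (hx : x ∈ H w) : per x = Real.pi ^ w * nu hper ((Ti x).eval 1) := by
  have e : ∀ p : Bas, p ∈ x.support → per (Finsupp.single p (x p)) =
      Real.pi ^ w * nu hper ((Ti (Finsupp.single p (x p))).eval 1) := by
    intro p hp
    have e1 : (Finsupp.single p (x p) : Bas →₀ ℚ) = x p • Finsupp.single p 1 := by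
      rw [Finsupp.smul_single, smul_eq_mul, mul_one]
    rw [e1, map_smul, map_smul, Ti_single, eval_smul, eval_monomial, one_pow, mul_one, nu_smul, nu_ew,
      per_single hper hpi, mem_H.1 hx p hp, Rat.smul_def]
    ring
  rw [per_eq, Finset.sum_congr rfl e, ← Finset.mul_sum, ← map_sum, ← eval_finset_sum, ← map_sum]
  congr 4
  exact Finsupp.sum_single x

lemma eval_zero_of (x : Bas →₀ ℚ) {w : ℕ} (hx : x ∈ H w) (h : (Ti x).eval 1 = 0) : x = 0 := by
  have hsum : (Ti x).eval 1 = ∑ p ∈ x.support, x p • ew p.2 := by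
    conv_lhs => rw [← Finsupp.sum_single x]
    rw [Finsupp.sum, map_sum, eval_finset_sum]
    refine Finset.sum_congr rfl fun p _ => ?_
    have e1 : (Finsupp.single p (x p) : Bas →₀ ℚ) = x p • Finsupp.single p 1 := by
      rw [Finsupp.smul_single, smul_eq_mul, mul_one]
    rw [e1, map_smul, Ti_single, eval_smul, eval_monomial, one_pow, mul_one]
  ext q
  by_contra hq
  have hq' : q ∈ x.support := Finsupp.mem_support_iff.2 hq
  rw [hsum] at h
  have h1 : (∑ p ∈ x.support, x p • (Finsupp.single p.2 1 : List ℕ →₀ ℚ)) = 0 := h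
  have h2 := congrArg (fun f => f q.2) h1
  simp only [Finsupp.finset_sum_apply, Finsupp.smul_apply, Finsupp.single_apply, smul_eq_mul, Finsupp.coe_zero,
    Pi.zero_apply] at h2
  rw [Finset.sum_eq_single q] at h2
  · rw [if_pos rfl, mul_one] at h2
    exact hq h2
  · intro p hp hpq
    have h3 : p.2 ≠ q.2 := by
      intro h3
      apply hpq
      have w1 := mem_H.1 hx p hp
      have w2 := mem_H.1 hx q hq'
      have e1 : p = (p.1, p.2) := rfl
      have e2 : q = (q.1, q.2) := rfl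
      rw [e1, wt_eq, h3] at w1
      rw [e2, wt_eq] at w2
      refine Prod.ext (by omega) h3
    rw [if_neg h3, mul_zero]
  · intro h3
    exact absurd hq' h3

/-- conversely -/
theorem inj_of_nu (hper : IsPeriodMap per) (hpi : per (Finsupp.single (1, []) 1) = Real.pi ^ 2)
    (h : Function.Injective (nu hper)) : ∀ w, ∀ x ∈ H w, per x = 0 → x = 0 := by
  intro w x hx h0
  rw [per_nu hper hpi hx] at h0
  have h1 : nu hper ((Ti x).eval 1) = 0 := by
    rcases mul_eq_zero.1 h0 with h2 | h2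
    · exact absurd h2 (pow_ne_zero _ Real.pi_ne_zero)
    · exact h2
  exact eval_zero_of x hx (h (h1.trans (map_zero _).symm))

end

end Pool.Agent.K4H66.MV
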