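import Pool.Agent.K4H66.MV.C

set_option autoImplicit false

/-! Dimensions. -/

namespace Pool.Agent.K4H66.MV

open Polynomial Finset Pool.Agent.K4H54.MZ Pool.Agent.K4H31.MZ H569R3.Hall

noncomputable section

/-- the elements of weight at most `N` -/
def HN (N : ℕ) : Submodule ℚ (Bas →₀ ℚ) := Finsupp.supported ℚ ℚ {p | wt p ≤ N}

/-- the number of basis elements of weight at most `N` -/
def DN (N : ℕ) : ℕ := ∑ k ∈ range (N + 1), D k

/-- the sum of the spaces `Z k`, `k ≤ N`, of real numbers -/
def ZN (N : ℕ) : Submodule ℚ ℝ := ⨆ k : ℕ, ⨆ _ : k ≤ N, Z k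

lemma mem_HN {N : ℕ} {x : Bas →₀ ℚ} : x ∈ HN N ↔ ∀ p ∈ x.support, wt p ≤ N := by
  unfold HN
  rw [Finsupp.mem_supported]
  rfl

lemma HN_eq (N : ℕ) : HN N = ⨆ k : ℕ, ⨆ _ : k ≤ N, H k := by
  unfold HN H
  have e : {p : Bas | wt p ≤ N} = ⋃ k : ℕ, ⋃ _ : k ≤ N, {p : Bas | wt p = k} := by
    ext p
    simp
  rw [e, Finsupp.supported_iUnion]
  refine iSup_congr fun k => ?_
  by_cases hk : k ≤ N
  · simp [hk]
  · simp [hk]

variable {per : (Bas →₀ ℚ) →ₗ[ℚ] ℝ}

lemma map_HN (hper : IsPeriodMap per) (N : ℕ) : (HN N).map per = ZN N := by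
  rw [HN_eq]
  unfold ZN
  rw [Submodule.map_iSup]
  refine iSup_congr fun k => ?_
  rw [Submodule.map_iSup]
  refine iSup_congr fun _ => hper.2.2 k

lemma BN_finite (N : ℕ) : {p : Bas | wt p ≤ N}.Finite := by
  have e : {p : Bas | wt p ≤ N} = ⋃ k ∈ (range (N + 1) : Set ℕ), B k := by
    ext p
    simp [B]
  rw [e]
  exact (Finset.finite_toSet _).biUnion fun k _ => B_finite k

instance (N : ℕ) : Finite ({p | wt p ≤ N} : Set Bas) := (BN_finite N).to_subtype

instance HN_fd (N : ℕ) : FiniteDimensional ℚ (HN N) :=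
  Module.Finite.equiv (Finsupp.supportedEquivFinsupp (M := ℚ) (R := ℚ) {p : Bas | wt p ≤ N}).symm

lemma card_BN (N : ℕ) : {p : Bas | wt p ≤ N}.ncard = DN N := by
  induction N with
  | zero =>
    unfold DN D
    rw [sum_range_one]
    congr 1
    ext p
    simp [B]
  | succ N ih =>
    unfold DN at ih ⊢
    rw [Finset.sum_range_succ, ← ih]
    unfold D
    have e2 : {p : Bas | wt p ≤ N + 1} = {p : Bas | wt p ≤ N} ∪ B (N + 1) := by
      ext p
      simp only [B, Set.mem_setOf_eq, Set.mem_union]
      omega
    rw [e2, Set.ncard_union_eq _ (BN_finite N) (B_finite _)]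
    rw [Set.disjoint_left]
    intro p hp hp2
    simp only [B, Set.mem_setOf_eq] at hp hp2
    omega

lemma finrank_HN (N : ℕ) : Module.finrank ℚ (HN N) = DN N := by
  rw [← card_BN]
  have := (Finsupp.supportedEquivFinsupp (M := ℚ) (R := ℚ) {p : Bas | wt p ≤ N}).finrank_eq
  have hf : Fintype ({p | wt p ≤ N} : Set Bas) := Fintype.ofFinite _
  unfold HN
  rw [this, Module.finrank_finsupp_self, ← Nat.card_eq_fintype_card]
  rfl

lemma HN_iff (h : ∀ w, ∀ x ∈ H w, per x = 0 → x = 0) (N : ℕ) (x : Bas →₀ ℚ) :
    x ∈ HN N ↔ (Phi per x).natDegree ≤ N := by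
  rw [natDegree_le_iff_coeff_eq_zero, mem_HN]
  constructor
  · intro h1 k hk
    rw [Phi_coeff]
    have : cmp k x = 0 := by
      unfold cmp
      rw [Finsupp.filter_eq_zero_iff]
      intro p hp
      by_contra h2
      have := h1 p (Finsupp.mem_support_iff.2 h2)
      omega
    rw [this, map_zero]
  · intro h1 p hp
    by_contra h2
    push Not at h2
    have h3 := h1 _ h2
    rw [Phi_coeff] at h3
    have h4 := h _ _ (cmp_mem (wt p) x) h3
    unfold cmp at h4
    rw [Finsupp.filter_eq_zero_iff] at h4
    exact Finsupp.mem_support_iff.1 hp (h4 p rfl)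

/-- multiplication by a fixed element -/
def mF (F : Sh[X]) : (Bas →₀ ℚ) →ₗ[ℚ] (Bas →₀ ℚ) :=
  TE.symm.toLinearMap.comp ((LinearMap.mulLeft ℚ F).comp TE.toLinearMap)

lemma mF_apply (F : Sh[X]) (y : Bas →₀ ℚ) : mF F y = TE.symm (F * TE y) := rfl

lemma mF_inj {F : Sh[X]} (hF : F ≠ 0) : Function.Injective (mF F) := by
  intro x y h
  rw [mF_apply, mF_apply] at h
  exact TE.injective (mul_left_cancel₀ hF (TE.symm.injective h))

lemma deg_mF (hper : IsPeriodMap per) (h : ∀ w, ∀ x ∈ H w, per x = 0 → x = 0) {F : Sh[X]} (hF : F ≠ 0)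
    {y : Bas →₀ ℚ} (hy : y ≠ 0) : (Phi per (mF F y)).natDegree = (Psi hper F).natDegree + (Phi per y).natDegree := by
  have e1 : Phi per (mF F y) = Psi hper F * Phi per y := by
    rw [mF_apply, ← Psi_apply hper, map_mul, Psi_apply hper (TE y), LinearEquiv.symm_apply_apply]
  rw [e1, natDegree_mul]
  · intro h1
    exact hF (Psi_inj hper h (h1.trans (map_zero _).symm))
  · intro h1
    exact hy (Phi_inj h (h1.trans (map_zero _).symm))

/-- the dimension of the space of all multiple zeta values of weight at most `N` -/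
theorem dims (hper : IsPeriodMap per) (h : ∀ w, ∀ x ∈ H w, per x = 0 → x = 0) {F : Sh[X]}
    (hF : ∀ x : Sh[X], (Psi hper x).eval 1 = 0 ↔ F ∣ x) :
    (∀ N, Module.finrank ℚ (ZN N) = DN N) ∨ ∃ a : ℕ, 1 ≤ a ∧ ∀ N,
      Module.finrank ℚ (ZN N) + ∑ k ∈ range (N + 1 - a), D k = DN N := by
  have hker : ∀ x : Bas →₀ ℚ, per x = 0 ↔ F ∣ TE x := by
    intro x
    rw [← hF, Psi_eval, LinearEquiv.symm_apply_apply]
  have hrk : ∀ N, Module.finrank ℚ (ZN N) + Module.finrank ℚ (LinearMap.ker (per.domRestrict (HN N))) = DN N := by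
    intro N
    rw [← finrank_HN, ← LinearMap.finrank_range_add_finrank_ker (per.domRestrict (HN N)), LinearMap.range_domRestrict,
      map_HN hper]
  by_cases hF0 : F = 0
  · left
    intro N
    rw [← hrk N]
    have h1 : LinearMap.ker (per.domRestrict (HN N)) = ⊥ := by
      rw [Submodule.eq_bot_iff]
      intro x hx
      rw [LinearMap.mem_ker, LinearMap.domRestrict_apply, hker, hF0, zero_dvd_iff] at hx
      exact Subtype.ext (TE.map_eq_zero_iff.1 hx)
    rw [h1, finrank_bot, add_zero]
  · right
    refine ⟨(Psi hper F).natDegree, ?_, fun N => ?_⟩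
    · by_contra h1
      have h2 : (Psi hper F).natDegree = 0 := by omega
      have h3 := eq_C_of_natDegree_eq_zero h2
      have h4 := (hF F).2 dvd_rfl
      rw [h3, eval_C] at h4
      rw [h4, C_0] at h3
      exact hF0 (Psi_inj hper h (h3.trans (map_zero _).symm))
    · rw [← hrk N]
      congr 1
      set a := (Psi hper F).natDegree with ha
      by_cases haN : a ≤ N
      · have e1 : N + 1 - a = (N - a) + 1 := by omega
        rw [e1]
        change DN (N - a) = _
        rw [← finrank_HN]
        have hmaps : ∀ y ∈ HN (N - a), mF F y ∈ HN N := by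
          intro y hy
          by_cases hy0 : y = 0
          · rw [hy0, map_zero]; exact zero_mem _
          · rw [HN_iff h] at hy ⊢
            rw [deg_mF hper h hF0 hy0]
            omega
        let g : HN (N - a) →ₗ[ℚ] LinearMap.ker (per.domRestrict (HN N)) :=
          { toFun := fun y => ⟨⟨mF F y, hmaps y y.2⟩, by
              rw [LinearMap.mem_ker, LinearMap.domRestrict_apply]
              change per (mF F y) = 0
              rw [hker, mF_apply, LinearEquiv.apply_symm_apply]
              exact dvd_mul_right _ _⟩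
            map_add' := fun y z => by
              apply Subtype.ext; apply Subtype.ext
              exact map_add (mF F) _ _
            map_smul' := fun c y => by
              apply Subtype.ext; apply Subtype.ext
              exact map_smul (mF F) _ _ }
        refine (LinearEquiv.ofBijective g ⟨?_, ?_⟩).finrank_eq
        · intro y z hyz
          have h1 : mF F y = mF F z := congrArg (fun t => (t.1.1 : Bas →₀ ℚ)) hyz
          exact Subtype.ext (mF_inj hF0 h1)
        · rintro ⟨⟨x, hx⟩, hx2⟩
          rw [LinearMap.mem_ker, LinearMap.domRestrict_apply, hker] at hx2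
          obtain ⟨f, hf⟩ := hx2
          have e2 : mF F (TE.symm f) = x := by
            rw [mF_apply, LinearEquiv.apply_symm_apply, ← hf, LinearEquiv.symm_apply_apply]
          have h2 : TE.symm f ∈ HN (N - a) := by
            by_cases hf0 : TE.symm f = 0
            · rw [hf0]; exact zero_mem _
            · rw [HN_iff h]
              have h3 := deg_mF hper h hF0 hf0
              rw [e2] at h3
              rw [HN_iff h] at hx
              omega
          exact ⟨⟨TE.symm f, h2⟩, Subtype.ext (Subtype.ext e2)⟩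
      · have e1 : N + 1 - a = 0 := by omega
        rw [e1, range_zero, sum_empty]
        symm
        have h1 : LinearMap.ker (per.domRestrict (HN N)) = ⊥ := by
          rw [Submodule.eq_bot_iff]
          rintro ⟨x, hx⟩ hx2
          rw [LinearMap.mem_ker, LinearMap.domRestrict_apply, hker] at hx2
          obtain ⟨f, hf⟩ := hx2
          have e2 : mF F (TE.symm f) = x := by
            rw [mF_apply, LinearEquiv.apply_symm_apply, ← hf, LinearEquiv.symm_apply_apply]
          apply Subtype.ext
          change x = 0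
          by_cases hf0 : TE.symm f = 0
          · rw [← e2, hf0, map_zero]
          · exfalso
            have h3 := deg_mF hper h hF0 hf0
            rw [e2] at h3
            rw [HN_iff h] at hx
            omega
        rw [h1, finrank_bot]

end

end Pool.Agent.K4H66.MV
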