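import Pool.Agent.K4H66.MV.Spec

/-!
# From rational to algebraic coefficients
-/

set_option autoImplicit false

namespace Pool.Agent.K4H66.MV

/-- P2: from rational to algebraic coefficients -/
theorem P2_holds : P2 := by
  classical
  intro A _ _ J x hx ν hν ι e he c hc h0
  let ω : A →ₐ[ℚ] ℂ := (Complex.ofRealAm.restrictScalars ℚ).comp ν
  have hω : ∀ a, ω a = ((ν a : ℝ) : ℂ) := fun a => rfl
  have hωi : Function.Injective ω := by
    intro a b hab
    rw [hω, hω] at hab
    exact hν (Complex.ofReal_injective hab)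
  have h1 : AlgebraicIndependent ℚ (ω ∘ x) := AlgebraicIndependent.map' hx.1 hωi
  have h2 : AlgebraicIndependent (algebraicClosure ℚ ℂ) (ω ∘ x) := h1.algebraicClosure
  choose p hp using fun i => hx.2 (e i)
  have hpl : LinearIndependent ℚ p := by
    refine LinearIndependent.of_comp (MvPolynomial.aeval x : MvPolynomial J ℚ →ₐ[ℚ] A).toLinearMap ?_
    have : (MvPolynomial.aeval x : MvPolynomial J ℚ →ₐ[ℚ] A).toLinearMap ∘ p = e := funext hp
    rw [this]
    exact he
  have hs : ∀ i, c i ∈ algebraicClosure ℚ ℂ := fun i => mem_algebraicClosure_iff.2 (hc i)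
  let P : MvPolynomial J (algebraicClosure ℚ ℂ) := ∑ i ∈ c.support,
    MvPolynomial.C (⟨c i, hs i⟩ : algebraicClosure ℚ ℂ) *
      MvPolynomial.map (algebraMap ℚ (algebraicClosure ℚ ℂ)) (p i)
  have hP : MvPolynomial.aeval (ω ∘ x) P = 0 := by
    rw [map_sum]
    rw [← h0, Finsupp.sum]
    refine Finset.sum_congr rfl fun i _ => ?_
    rw [map_mul, MvPolynomial.aeval_C, MvPolynomial.aeval_map_algebraMap]
    have h3 : MvPolynomial.aeval (ω ∘ x) (p i) = ω (e i) := by
      rw [← hp i]
      exact (MvPolynomial.comp_aeval_apply x ω (p i)).symm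
    rw [h3, hω]
    rfl
  have hP0 : P = 0 := by
    have := (injective_iff_map_eq_zero _).1 h2 P hP
    exact this
  have hcoef : ∀ m, ∑ i ∈ c.support, c i * ((MvPolynomial.coeff m (p i) : ℚ) : ℂ) = 0 := by
    intro m
    have h3 := congrArg (fun q => ((MvPolynomial.coeff m q : algebraicClosure ℚ ℂ) : ℂ)) hP0
    simp only [P, MvPolynomial.coeff_sum, MvPolynomial.coeff_C_mul, MvPolynomial.coeff_map,
      MvPolynomial.coeff_zero] at h3
    push_cast at h3
    rw [← h3]
    refine Finset.sum_congr rfl fun i _ => ?_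
    simp
  have hφ : ∀ (φ : Module.Dual ℚ ℂ) (i : ι), i ∈ c.support → φ (c i) = 0 := by
    intro φ
    have h4 : ∑ i ∈ c.support, φ (c i) • p i = 0 := by
      ext m
      rw [MvPolynomial.coeff_sum, MvPolynomial.coeff_zero]
      have h5 := congrArg φ (hcoef m)
      rw [map_sum, map_zero] at h5
      rw [← h5]
      refine Finset.sum_congr rfl fun i _ => ?_
      rw [MvPolynomial.coeff_smul]
      have h6 : c i * ((MvPolynomial.coeff m (p i) : ℚ) : ℂ) = (MvPolynomial.coeff m (p i)) • c i := by
        rw [Algebra.smul_def, mul_comm]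
        rfl
      rw [h6, map_smul, smul_eq_mul, smul_eq_mul, mul_comm]
    exact linearIndependent_iff'.1 hpl c.support (fun i => φ (c i)) h4
  ext i
  by_cases hi : i ∈ c.support
  · exact (Module.forall_dual_apply_eq_zero_iff ℚ (c i)).1 fun φ => hφ φ i hi
  · simpa using hi

end Pool.Agent.K4H66.MV
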