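import Pool.Agent.K4H66.MV.C
import Pool.Agent.K4H66.MV.P2

set_option autoImplicit false

/-! Algebraic coefficients. -/

namespace Pool.Agent.K4H66.MV

open Polynomial Finset Pool.Agent.K4H54.MZ Pool.Agent.K4H31.MZ H569R3.Hall

noncomputable section

variable {per : (Bas →₀ ℚ) →ₗ[ℚ] ℝ}

lemma Q1_iff_inj (hper : IsPeriodMap per) : Q1 ↔ ∀ w, ∀ x ∈ H w, per x = 0 → x = 0 :=
  ⟨inj_of_Q1 hper, Q1_of_injective hper⟩

lemma nu_eq (hper : IsPeriodMap per) (x : Sh) :
    nu hper x = Finsupp.linearCombination ℚ (vn per) (show List ℕ →₀ ℚ from x) := by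
  refine Sh_induction (p := fun x => nu hper x =
    Finsupp.linearCombination ℚ (vn per) (show List ℕ →₀ ℚ from x)) x ?_ ?_ ?_
  · rw [map_zero]
    exact (map_zero (Finsupp.linearCombination ℚ (vn per))).symm
  · intro f g hf hg
    rw [map_add, hf, hg]
    exact (map_add (Finsupp.linearCombination ℚ (vn per)) _ _).symm
  · intro c w
    rw [nu_smul, nu_ew]
    have h1 : Finsupp.linearCombination ℚ (vn per) (show List ℕ →₀ ℚ from (c • ew w)) =
        c • Finsupp.linearCombination ℚ (vn per) (Finsupp.single w (1:ℚ)) :=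
      map_smul (Finsupp.linearCombination ℚ (vn per)) _ _
    rw [h1, Finsupp.linearCombination_single, one_smul, Rat.smul_def]

/-- linear independence of the normalised periods -/
lemma li_iff (hper : IsPeriodMap per) : LinearIndependent ℚ (vn per) ↔ Function.Injective (nu hper) := by
  constructor
  · intro h x y hxy
    rw [nu_eq, nu_eq] at hxy
    exact h hxy
  · intro h x y hxy
    have h1 : nu hper (x : Sh) = nu hper (y : Sh) := by
      rw [nu_eq, nu_eq]
      exact hxy
    exact h h1

/-- as an algebra homomorphism -/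
def nuA (hper : IsPeriodMap per) : Sh →ₐ[ℚ] ℝ :=
  { nu hper with
    commutes' := fun r => by
      change nu hper (algebraMap ℚ Sh r) = _
      rw [Algebra.algebraMap_eq_smul_one, nu_smul, map_one, mul_one]
      rfl }

lemma ew_li : LinearIndependent ℚ ew := by
  intro x y hxy
  have h : ∀ z : List ℕ →₀ ℚ, Finsupp.linearCombination ℚ ew z = (show Sh from z) := by
    intro z
    rw [Finsupp.linearCombination_apply]
    have h1 : (z.sum fun i a => a • (Finsupp.single i (1:ℚ) : List ℕ →₀ ℚ)) = z := by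
      have : ∀ i a, a • (Finsupp.single i (1:ℚ) : List ℕ →₀ ℚ) = Finsupp.single i a := by
        intro i a
        rw [Finsupp.smul_single, smul_eq_mul, mul_one]
      simp only [this]
      exact Finsupp.sum_single z
    exact h1
  rw [h, h] at hxy
  exact hxy

/-- the algebraic numbers -/
abbrev QB : Type := algebraicClosure ℚ ℂ

/-- no relations with algebraic coefficients -/
theorem li_QB (hP4 : P4) (hper : IsPeriodMap per) (h : Function.Injective (nu hper)) :
    LinearIndependent QB (fun u : List ℕ => ((vn per u : ℝ) : ℂ)) := by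
  obtain ⟨J, x, hx⟩ := hP4
  rw [linearIndependent_iff]
  intro c hc
  have h2 := P2_holds Sh J x hx (nuA hper) h (List ℕ) ew ew_li (c.mapRange (fun a : QB => (a : ℂ)) (by simp))
    (fun i => by
      rw [Finsupp.mapRange_apply]
      exact mem_algebraicClosure_iff.1 (c i).2) (by
      rw [Finsupp.linearCombination_apply] at hc
      rw [Finsupp.sum_mapRange_index (by intro a; simp)]
      rw [← hc]
      refine Finset.sum_congr rfl fun u _ => ?_
      have e1 : nuA hper (ew u) = vn per u := nu_ew hper u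
      beta_reduce
      rw [e1]
      rfl)
  ext i
  have h3 := congrArg (fun f => f i) h2
  simpa using h3

/-- the span of the multiple zeta values over the algebraic numbers -/
def ZB (k : ℕ) : Submodule QB ℂ := Submodule.span QB ((fun x : ℝ => (x : ℂ)) '' (Z k : Set ℝ))

lemma ZB_eq (hper : IsPeriodMap per) (hpi : per (Finsupp.single (1, []) 1) = Real.pi ^ 2) (k : ℕ) :
    ZB k = Submodule.span QB (Set.range fun p : B k => (((Real.pi ^ k * vn per p.1.2 : ℝ)) : ℂ)) := by
  unfold ZB
  apply le_antisymm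
  · rw [Submodule.span_le]
    rintro _ ⟨z, hz, rfl⟩
    have hz' : z ∈ Z k := hz
    rw [← hper.2.2 k] at hz'
    obtain ⟨x, hx, rfl⟩ := hz'
    have hx' := mem_H.1 hx
    change ((per x : ℝ) : ℂ) ∈ _
    rw [per_eq, Complex.ofReal_sum]
    refine Submodule.sum_mem _ fun p hp => ?_
    have e1 : (Finsupp.single p (x p) : Bas →₀ ℚ) = x p • Finsupp.single p 1 := by
      rw [Finsupp.smul_single, smul_eq_mul, mul_one]
    rw [e1, map_smul, per_single hper hpi, hx' p hp, Rat.smul_def]
    have e2 : (((x p : ℝ) * (Real.pi ^ k * vn per p.2) : ℝ) : ℂ) =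
        ((algebraMap ℚ QB (x p)) : QB) • (((Real.pi ^ k * vn per p.2 : ℝ)) : ℂ) := by
      rw [Complex.ofReal_mul, Complex.ofReal_ratCast]
      rw [algebraMap_smul, Rat.smul_def]
    rw [e2]
    exact Submodule.smul_mem _ _ (Submodule.subset_span ⟨⟨p, hx' p hp⟩, rfl⟩)
  · rw [Submodule.span_le]
    rintro _ ⟨p, rfl⟩
    refine Submodule.subset_span ⟨Real.pi ^ k * vn per p.1.2, ?_, rfl⟩
    rw [← hper.2.2 k]
    refine ⟨Finsupp.single p.1 1, ?_, ?_⟩
    · have := single_mem p.1
      have h2 : wt p.1 = k := p.2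
      rw [h2] at this
      exact this
    · rw [per_single hper hpi]
      have h2 : wt p.1 = k := p.2
      rw [h2]

lemma ZB_le (k : ℕ) [FiniteDimensional ℚ (Z k)] : Module.finrank QB (ZB k) ≤ Module.finrank ℚ (Z k) := by
  let b := Module.finBasis ℚ (Z k)
  have h1 : ZB k ≤ Submodule.span QB (Set.range fun i => (((b i : ℝ)) : ℂ)) := by
    unfold ZB
    rw [Submodule.span_le]
    rintro _ ⟨z, hz, rfl⟩
    have h2 := b.sum_repr ⟨z, hz⟩
    have h3 : z = ∑ i, (b.repr ⟨z, hz⟩ i) • (b i : ℝ) := by
      have := congrArg (fun t : Z k => (t : ℝ)) h2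
      simp only [Submodule.coe_sum, Submodule.coe_smul] at this
      exact this.symm
    change ((z : ℝ) : ℂ) ∈ _
    rw [h3, Complex.ofReal_sum]
    refine Submodule.sum_mem _ fun i _ => ?_
    rw [Rat.smul_def, Complex.ofReal_mul, Complex.ofReal_ratCast, ← Rat.smul_def]
    rw [← algebraMap_smul QB]
    exact Submodule.smul_mem _ _ (Submodule.subset_span ⟨i, rfl⟩)
  have h4 : Module.Finite QB (Submodule.span QB (Set.range fun i => (((b i : ℝ)) : ℂ))) :=
    Module.Finite.span_of_finite QB (Set.finite_range _)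
  refine (Submodule.finrank_mono h1).trans ?_
  refine (finrank_range_le_card _).trans ?_
  rw [Fintype.card_fin]

/-- the dimension formula over the algebraic numbers -/
theorem ZB_dim (hper : IsPeriodMap per) (hpi : per (Finsupp.single (1, []) 1) = Real.pi ^ 2)
    (h : LinearIndependent QB (fun u : List ℕ => ((vn per u : ℝ) : ℂ))) (k : ℕ) :
    Module.finrank QB (ZB k) = D k := by
  rw [ZB_eq hper hpi]
  have hf : Fintype (B k) := (B_finite k).fintype
  have hinj : Function.Injective (fun p : B k => p.1.2) := by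
    intro p q hpq
    have hp : wt p.1 = k := p.2
    have hq : wt q.1 = k := q.2
    have e1 : p.1 = (p.1.1, p.1.2) := rfl
    have e2 : q.1 = (q.1.1, q.1.2) := rfl
    have hpq' : p.1.2 = q.1.2 := hpq
    rw [e1, wt_eq, hpq'] at hp
    rw [e2, wt_eq] at hq
    exact Subtype.ext (Prod.ext (by omega) hpq')
  have h1 : LinearIndependent QB (fun p : B k => ((vn per p.1.2 : ℝ) : ℂ)) := h.comp _ hinj
  have h2 : LinearIndependent QB (fun p : B k => (((Real.pi ^ k * vn per p.1.2 : ℝ)) : ℂ)) := by
    have hpk : ((Real.pi ^ k : ℝ) : ℂ) ≠ 0 := by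
      exact_mod_cast pow_ne_zero k Real.pi_ne_zero
    let L : ℂ →ₗ[QB] ℂ := LinearMap.mulLeft QB ((Real.pi ^ k : ℝ) : ℂ)
    have hL : LinearMap.ker L = ⊥ := by
      rw [LinearMap.ker_eq_bot]
      intro a b hab
      exact mul_left_cancel₀ hpk hab
    have h3 := h1.map' L hL
    have e : (⇑L ∘ fun p : B k => ((vn per p.1.2 : ℝ) : ℂ)) = fun p : B k => (((Real.pi ^ k * vn per p.1.2 : ℝ)) : ℂ) := by
      funext p
      change ((Real.pi ^ k : ℝ) : ℂ) * ((vn per p.1.2 : ℝ) : ℂ) = _
      rw [← Complex.ofReal_mul]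
    rw [e] at h3
    exact h3
  rw [finrank_span_eq_card h2]
  unfold D
  rw [← Nat.card_coe_set_eq, Nat.card_eq_fintype_card]

end

end Pool.Agent.K4H66.MV
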