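import Pool.Agent.K4H66.MV.D
import Pool.Agent.K4H66.MV.E

set_option autoImplicit false

/-! The two theorems. -/

namespace Pool.Agent.K4H66.MV

open Polynomial Finset Pool.Agent.K4H54.MZ Pool.Agent.K4H31.MZ H569R3.Hall

noncomputable section

variable {per : (Bas →₀ ℚ) →ₗ[ℚ] ℝ}

theorem Q1_tfae (hP4 : P4) (hper : IsPeriodMap per) (hpi : per (Finsupp.single (1, []) 1) = Real.pi ^ 2) :
    List.TFAE [Q1, LinearIndependent ℚ (vn per), LinearIndependent QB (fun u : List ℕ => ((vn per u : ℝ) : ℂ)),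
      ∀ k, Module.finrank QB (ZB k) = D k] := by
  tfae_have 1 → 2 := fun h => (li_iff hper).2 (nu_inj hper hpi (inj_of_Q1 hper h))
  tfae_have 2 → 3 := fun h => li_QB hP4 hper ((li_iff hper).1 h)
  tfae_have 3 → 4 := fun h k => ZB_dim hper hpi h k
  tfae_have 4 → 1 := by
    intro h
    refine Q1_of_injective hper fun w x hx h0 => ?_
    have hfd := finite_Z hper w
    have h1 := ZB_le w
    rw [h w] at h1
    have h2 := finrank_Z_add hper w
    have h3 : Module.finrank ℚ (LinearMap.ker (perW hper w)) = 0 := by omega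
    have h4 : LinearMap.ker (perW hper w) = ⊥ := Submodule.finrank_eq_zero.1 h3
    have h5 : (⟨x, hx⟩ : H w) ∈ LinearMap.ker (perW hper w) := by
      rw [LinearMap.mem_ker]
      apply Subtype.ext
      rw [perW_apply]
      exact h0
    rw [h4, Submodule.mem_bot] at h5
    exact congrArg Subtype.val h5
  tfae_finish

lemma Sh_ufd (hP4 : P4) : UniqueFactorizationMonoid Sh := by
  obtain ⟨J, x, hx⟩ := hP4
  exact MulEquiv.uniqueFactorizationMonoid (AlgEquiv.ofBijective _ hx).toMulEquiv inferInstance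

/-- the relations, also between different weights, are the multiples of one of them -/
theorem principal (hP1 : P1) (hP4 : P4) (hper : IsPeriodMap per) (h : ∀ w, ∀ x ∈ H w, per x = 0 → x = 0) :
    ∃ F : Sh[X], ∀ x : Sh[X], (Psi hper x).eval 1 = 0 ↔ F ∣ x := by
  have h1 := Sh_ufd hP4
  exact hP1 Sh[X] (Psi hper) (Psi_inj hper h) (Psi_cmp hper)

theorem one_relation (hP1 : P1) (hP4 : P4) (hper : IsPeriodMap per) (hQ : Q1) :
    (∃ F : Bas →₀ ℚ, ∀ x : Bas →₀ ℚ, per x = 0 ↔ ∃ y, x = mulH F y) ∧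
    ((∀ N, Module.finrank ℚ (ZN N) = DN N) ∨ ∃ a : ℕ, 1 ≤ a ∧ ∀ N,
      Module.finrank ℚ (ZN N) + ∑ k ∈ range (N + 1 - a), D k = DN N) := by
  have h := inj_of_Q1 hper hQ
  obtain ⟨F, hF⟩ := principal hP1 hP4 hper h
  refine ⟨⟨TE.symm F, fun x => ?_⟩, dims hper h hF⟩
  have h1 : per x = 0 ↔ F ∣ TE x := by
    rw [← hF, Psi_eval, LinearEquiv.symm_apply_apply]
  rw [h1]
  constructor
  · rintro ⟨f, hf⟩
    refine ⟨TE.symm f, ?_⟩
    rw [← TE_symm_mul, ← hf, LinearEquiv.symm_apply_apply]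
  · rintro ⟨y, hy⟩
    refine ⟨TE y, ?_⟩
    rw [hy]
    have := TE_symm_mul F (TE y)
    rw [LinearEquiv.symm_apply_apply] at this
    rw [← this, LinearEquiv.apply_symm_apply]

end

end Pool.Agent.K4H66.MV
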