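import Pool.Agent.K4H66.MV.Spec

set_option autoImplicit false

namespace Pool.Agent.K4H66.MV

open Polynomial

/-- spread -/
def spr (p : ℝ[X]) : ℕ := p.natDegree - p.natTrailingDegree

lemma spr_mul {p q : ℝ[X]} (hp : p ≠ 0) (hq : q ≠ 0) : spr (p * q) = spr p + spr q := by
  unfold spr
  rw [natDegree_mul hp hq, natTrailingDegree_mul hp hq]
  have h1 := natTrailingDegree_le_natDegree p
  have h2 := natTrailingDegree_le_natDegree q
  omega

lemma step {p q : ℝ[X]} (hp : p ≠ 0) (hq : q ≠ 0) (h : spr p ≤ spr q)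
    (hne : monomial p.natDegree p.leadingCoeff * q - monomial q.natDegree q.leadingCoeff * p ≠ 0) :
    spr (monomial p.natDegree p.leadingCoeff * q - monomial q.natDegree q.leadingCoeff * p) < spr q := by
  have hcp : ∀ n, (monomial p.natDegree p.leadingCoeff * q).coeff n =
      if p.natDegree ≤ n then p.leadingCoeff * q.coeff (n - p.natDegree) else 0 := by
    intro n
    rw [← C_mul_X_pow_eq_monomial, mul_assoc, coeff_C_mul, coeff_X_pow_mul']
    split_ifs <;> simp
  have hcq : ∀ n, (monomial q.natDegree q.leadingCoeff * p).coeff n =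
      if q.natDegree ≤ n then q.leadingCoeff * p.coeff (n - q.natDegree) else 0 := by
    intro n
    rw [← C_mul_X_pow_eq_monomial, mul_assoc, coeff_C_mul, coeff_X_pow_mul']
    split_ifs <;> simp
  set r := monomial p.natDegree p.leadingCoeff * q - monomial q.natDegree q.leadingCoeff * p with hr
  have h1 := natTrailingDegree_le_natDegree p
  have h2 := natTrailingDegree_le_natDegree q
  have h3 := natTrailingDegree_le_natDegree r
  have hrd : r.natDegree < p.natDegree + q.natDegree := by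
    by_contra hcon
    push Not at hcon
    have h4 : r.coeff r.natDegree = 0 := by
      rw [hr, coeff_sub, hcp, hcq, ← hr]
      rcases hcon.lt_or_eq with h5 | h5
      · rw [if_pos (by omega), if_pos (by omega), coeff_eq_zero_of_natDegree_lt (p := q) (by omega),
          coeff_eq_zero_of_natDegree_lt (p := p) (by omega)]
        ring
      · rw [if_pos (by omega), if_pos (by omega)]
        have e1 : r.natDegree - p.natDegree = q.natDegree := by omega
        have e2 : r.natDegree - q.natDegree = p.natDegree := by omega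
        rw [e1, e2]
        change p.leadingCoeff * q.leadingCoeff - q.leadingCoeff * p.leadingCoeff = 0
        ring
    exact hne (leadingCoeff_eq_zero.1 h4)
  have hrt : min (p.natDegree + q.natTrailingDegree) (q.natDegree + p.natTrailingDegree) ≤ r.natTrailingDegree := by
    refine le_natTrailingDegree hne fun n hn => ?_
    rw [lt_min_iff] at hn
    rw [hr, coeff_sub, hcp, hcq]
    have e1 : (if p.natDegree ≤ n then p.leadingCoeff * q.coeff (n - p.natDegree) else 0) = 0 := by
      split_ifs with h5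
      · rw [coeff_eq_zero_of_lt_natTrailingDegree (by omega), mul_zero]
      · rfl
    have e2 : (if q.natDegree ≤ n then q.leadingCoeff * p.coeff (n - q.natDegree) else 0) = 0 := by
      split_ifs with h5
      · rw [coeff_eq_zero_of_lt_natTrailingDegree (by omega), mul_zero]
      · rfl
    rw [e1, e2, sub_zero]
  unfold spr at h ⊢
  omega

theorem P1_holds : P1 := by
  intro R _ _ _ Ψ hΨ hcomp
  have hz : ∀ x : R, Ψ x = 0 ↔ x = 0 := fun x => ⟨fun h => hΨ (h.trans (map_zero Ψ).symm), fun h => by rw [h, map_zero]⟩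
  by_cases htriv : ∀ x : R, (Ψ x).eval 1 = 0 → x = 0
  · refine ⟨0, fun x => ⟨fun h => by rw [htriv x h], fun h => ?_⟩⟩
    rw [zero_dvd_iff.1 h, map_zero, eval_zero]
  push Not at htriv
  -- an element of minimal spread
  have hex : ∃ n : ℕ, ∃ x : R, (Ψ x).eval 1 = 0 ∧ x ≠ 0 ∧ spr (Ψ x) = n := by
    obtain ⟨x, h1, h2⟩ := htriv
    exact ⟨_, x, h1, h2, rfl⟩
  classical
  obtain ⟨F0, hF0, hF0n, hF0s⟩ := Nat.find_spec hex
  have hmin : ∀ x : R, (Ψ x).eval 1 = 0 → x ≠ 0 → Nat.find hex ≤ spr (Ψ x) :=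
    fun x h1 h2 => Nat.find_min' hex ⟨x, h1, h2, rfl⟩
  -- a prime factor in the kernel
  have hprime : ∃ F : R, Prime F ∧ F ∣ F0 ∧ (Ψ F).eval 1 = 0 := by
    obtain ⟨f, hf, hf2⟩ := UniqueFactorizationMonoid.exists_prime_factors F0 hF0n
    have h1 : (Ψ f.prod).eval 1 = 0 := by
      obtain ⟨u, hu⟩ := hf2
      rw [← hu, map_mul, eval_mul] at hF0
      rcases mul_eq_zero.1 hF0 with h | h
      · exact h
      · exfalso
        have h5 : (Ψ (u * u⁻¹ : Rˣ)).eval 1 = 1 := by simp
        rw [Units.val_mul, map_mul, eval_mul, h, zero_mul] at h5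
        exact zero_ne_one h5
    have h2 : ((f.map fun a => (Ψ a).eval 1).prod : ℝ) = 0 := by
      rw [← h1]
      exact (Multiset.prod_hom f ((evalRingHom (1:ℝ)).comp Ψ)).trans rfl
    rw [Multiset.prod_eq_zero_iff, Multiset.mem_map] at h2
    obtain ⟨F, hF, hF1⟩ := h2
    exact ⟨F, hf F hF, (Multiset.dvd_prod hF).trans hf2.dvd, hF1⟩
  obtain ⟨F, hFp, ⟨q, hq⟩, hF1⟩ := hprime
  have hFn : F ≠ 0 := hFp.ne_zero
  have hFmin : ∀ x : R, (Ψ x).eval 1 = 0 → x ≠ 0 → spr (Ψ F) ≤ spr (Ψ x) := by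
    intro x h1 h2
    refine le_trans ?_ (hmin x h1 h2)
    rw [← hF0s, hq, map_mul, spr_mul]
    · omega
    · rwa [Ne, hz]
    · rw [Ne, hz]
      rintro rfl
      rw [mul_zero] at hq
      exact hF0n hq
  have hFd : Ψ F ≠ 0 := by rwa [Ne, hz]
  obtain ⟨f, hf⟩ := hcomp F (Ψ F).natDegree
  -- the division
  have hdiv : ∀ n : ℕ, ∀ G : R, (Ψ G).eval 1 = 0 → spr (Ψ G) = n →
      ∃ (s : R) (m : ℕ) (c : ℝ), c ≠ 0 ∧ Ψ s = monomial m c ∧ F ∣ s * G := by
    intro n
    induction n using Nat.strong_induction_on with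
    | _ n ih =>
      intro G hG hn
      by_cases hG0 : G = 0
      · refine ⟨1, 0, 1, one_ne_zero, by rw [map_one]; rfl, by rw [hG0, mul_zero]; exact dvd_zero _⟩
      have hGd : Ψ G ≠ 0 := by rwa [Ne, hz]
      obtain ⟨g, hg⟩ := hcomp G (Ψ G).natDegree
      set G' := f * G - g * F with hG'
      have hG'1 : (Ψ G').eval 1 = 0 := by
        rw [hG', map_sub, map_mul, map_mul, eval_sub, eval_mul, eval_mul, hG, hF1]; ring
      have hG'Ψ : Ψ G' = monomial (Ψ F).natDegree (Ψ F).leadingCoeff * Ψ G -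
          monomial (Ψ G).natDegree (Ψ G).leadingCoeff * Ψ F := by
        rw [hG', map_sub, map_mul, map_mul, hf, hg]
        rfl
      have hfin : ∀ (s : R) (m : ℕ) (c : ℝ), c ≠ 0 → Ψ s = monomial m c → F ∣ s * G' →
          ∃ (s : R) (m : ℕ) (c : ℝ), c ≠ 0 ∧ Ψ s = monomial m c ∧ F ∣ s * G := by
        intro s m c hc hs hd
        refine ⟨s * f, m + (Ψ F).natDegree, c * (Ψ F).leadingCoeff, mul_ne_zero hc (leadingCoeff_ne_zero.2 hFd), ?_, ?_⟩
        · rw [map_mul, hs, hf, monomial_mul_monomial]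
          rfl
        · have e : s * f * G = s * G' + s * g * F := by rw [hG']; ring
          rw [e]
          exact dvd_add hd (dvd_mul_left _ _)
      by_cases hG'0 : G' = 0
      · exact hfin 1 0 1 one_ne_zero (by rw [map_one]; rfl) (by rw [hG'0, mul_zero]; exact dvd_zero _)
      · have hne : Ψ G' ≠ 0 := by rwa [Ne, hz]
        have hlt : spr (Ψ G') < n := by
          rw [← hn, hG'Ψ]
          rw [hG'Ψ] at hne
          exact step hFd hGd (hFmin G hG hG0) hne
        obtain ⟨s, m, c, hc, hs, hd⟩ := ih _ hlt G' hG'1 rfl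
        exact hfin s m c hc hs hd
  refine ⟨F, fun x => ⟨fun hx => ?_, ?_⟩⟩
  · obtain ⟨s, m, c, hc, hs, hd⟩ := hdiv _ x hx rfl
    rcases hFp.dvd_or_dvd hd with ⟨t, ht⟩ | h
    · exfalso
      have h1 : (Ψ s).eval 1 = 0 := by rw [ht, map_mul, eval_mul, hF1, zero_mul]
      rw [hs, eval_monomial, one_pow, mul_one] at h1
      exact hc h1
    · exact h
  · rintro ⟨y, rfl⟩
    rw [map_mul, eval_mul, hF1, zero_mul]

end Pool.Agent.K4H66.MV
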