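import Pool.Agent.K4H66.MV.Spec
import Pool.Agent.K4H31.MZ.Leray
import Pool.Agent.K4H31.MZ.Rem

set_option autoImplicit false

/-! P4: the shuffle algebra is a polynomial algebra. -/

namespace Pool.Agent.K4H66.MV

open H569R3.Hall Pool.Agent.K4H31.MZ

/-- combinations of words of length `n` -/
noncomputable def Gr (n : ℕ) : Submodule ℚ (V ℕ) :=
  (Finsupp.supported ℚ ℚ {w : List ℕ | w.length = n} : Submodule ℚ (List ℕ →₀ ℚ))

theorem mem_Gr {n : ℕ} {x : V ℕ} : x ∈ Gr n ↔
    ∀ w : List ℕ, w.length ≠ n → DFunLike.coe (F := List ℕ →₀ ℚ) x w = 0 := by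
  constructor
  · intro h w hw
    by_contra hne
    exact hw (Finsupp.mem_supported ℚ (x : List ℕ →₀ ℚ) |>.1 h (Finsupp.mem_support_iff.2 hne))
  · intro h
    refine (Finsupp.mem_supported ℚ (x : List ℕ →₀ ℚ)).2 ?_
    intro w hw
    by_contra hne
    exact (Finsupp.mem_support_iff.1 hw) (h w hne)

theorem e_mem {n : ℕ} {w : List ℕ} (h : w.length = n) : (e w : V ℕ) ∈ Gr n := by
  have : (Finsupp.single w (1 : ℚ)) ∈ Finsupp.supported ℚ ℚ {w : List ℕ | w.length = n} :=
    Finsupp.single_mem_supported _ _ h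
  exact this

/-- induction on elements of `Gr n` -/
theorem Gr_induction {n : ℕ} {p : V ℕ → Prop} (x : V ℕ) (hx : x ∈ Gr n) (h0 : p 0)
    (hadd : ∀ f g, p f → p g → p (f + g)) (hs : ∀ (c : ℚ) (w : List ℕ), w.length = n → p (c • e w)) :
    p x := by
  have hsum : (x : V ℕ) = ((x : List ℕ →₀ ℚ).sum fun w c => (Finsupp.single w c : List ℕ →₀ ℚ)) :=
    (Finsupp.sum_single (x : List ℕ →₀ ℚ)).symm
  rw [hsum]
  unfold Finsupp.sum
  refine Finset.sum_induction _ (fun y : List ℕ →₀ ℚ => p y) hadd h0 ?_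
  intro w hw
  have hl : w.length = n := by
    by_contra hne
    exact (Finsupp.mem_support_iff.1 hw) (mem_Gr.1 hx w hne)
  have h := hs (DFunLike.coe (F := List ℕ →₀ ℚ) x w) w hl
  have h2 : ((DFunLike.coe (F := List ℕ →₀ ℚ) x w) • e w : V ℕ) =
      (Finsupp.single w (DFunLike.coe (F := List ℕ →₀ ℚ) x w) : List ℕ →₀ ℚ) := by
    change (DFunLike.coe (F := List ℕ →₀ ℚ) x w) • (Finsupp.single w (1 : ℚ)) = _
    rw [Finsupp.smul_single, smul_eq_mul, mul_one]
  rw [h2] at h
  exact h

theorem snoc_mem {n : ℕ} (a : ℕ) {x : V ℕ} (hx : x ∈ Gr n) : snoc a x ∈ Gr (n + 1) := by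
  refine Gr_induction (p := fun x => snoc a x ∈ Gr (n + 1)) x hx ?_ ?_ ?_
  · rw [map_zero]
    exact zero_mem _
  · intro f g hf hg
    rw [map_add]
    exact add_mem hf hg
  · intro c w hw
    rw [map_smul, snoc_e]
    exact Submodule.smul_mem _ _ (e_mem (by simp [hw]))

theorem sh_e_mem (D : ShData ℕ) : ∀ (N : ℕ) (u v : List ℕ), u.length + v.length = N →
    D.sh (e u) (e v) ∈ Gr N := by
  intro N
  induction N with
  | zero =>
    intro u v h
    have hu : u = [] := List.length_eq_zero_iff.1 (by omega)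
    have hv : v = [] := List.length_eq_zero_iff.1 (by omega)
    subst hu; subst hv
    rw [D.one_sh]
    exact e_mem rfl
  | succ N ih =>
    intro u v h
    rcases List.eq_nil_or_concat u with rfl | ⟨u, p, rfl⟩
    · rw [D.one_sh]
      exact e_mem (by simpa using h)
    rcases List.eq_nil_or_concat v with rfl | ⟨v, q, rfl⟩
    · rw [D.sh_one]
      exact e_mem (by simpa using h)
    simp only [List.concat_eq_append] at h ⊢
    rw [D.sh_snoc]
    simp only [List.length_append, List.length_cons, List.length_nil] at h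
    exact add_mem (snoc_mem _ (ih _ _ (by simp; omega))) (snoc_mem _ (ih _ _ (by simp; omega)))

theorem sh_mem (D : ShData ℕ) {m n : ℕ} {x y : V ℕ} (hx : x ∈ Gr m) (hy : y ∈ Gr n) :
    D.sh x y ∈ Gr (m + n) := by
  refine Gr_induction (p := fun x => D.sh x y ∈ Gr (m + n)) x hx ?_ ?_ ?_
  · rw [map_zero]
    exact zero_mem _
  · intro f g hf hg
    rw [map_add]
    exact add_mem hf hg
  intro c u hu
  rw [map_smul]
  refine Submodule.smul_mem _ _ ?_
  refine Gr_induction (p := fun y => D.sh (e u) y ∈ Gr (m + n)) y hy ?_ ?_ ?_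
  · rw [map_zero]
    exact zero_mem _
  · intro f g hf hg
    rw [map_add]
    exact add_mem hf hg
  intro c v hv
  rw [map_smul]
  exact Submodule.smul_mem _ _ (sh_e_mem D _ u v (by rw [hu, hv]))

theorem Gr_internal : DirectSum.IsInternal Gr := by
  rw [DirectSum.isInternal_submodule_iff_iSupIndep_and_iSup_eq_top]
  let H : ℕ → Submodule ℚ (List ℕ →₀ ℚ) := fun n =>
    Finsupp.supported ℚ ℚ {w : List ℕ | w.length = n}
  have hdisj : ∀ k : ℕ, Disjoint (H k) (⨆ j : ℕ, ⨆ _ : j ≠ k, H j) := by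
    intro k
    have h1 : (⨆ j : ℕ, ⨆ _ : j ≠ k, H j) ≤
        Finsupp.supported ℚ ℚ {w : List ℕ | w.length ≠ k} := by
      refine iSup_le fun j => iSup_le fun hj => ?_
      apply Finsupp.supported_mono
      intro p hp
      have hp' : p.length = j := hp
      show p.length ≠ k
      rw [hp']
      exact hj
    refine Disjoint.mono_right h1 ?_
    apply Finsupp.disjoint_supported_supported
    rw [Set.disjoint_left]
    intro p hp hp2
    exact hp2 hp
  have htop : (⨆ k : ℕ, H k) = ⊤ := by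
    simp only [H]
    rw [← Finsupp.supported_iUnion]
    convert Finsupp.supported_univ
    rw [Set.eq_univ_iff_forall]
    intro p
    exact Set.mem_iUnion.2 ⟨p.length, rfl⟩
  exact ⟨fun k => hdisj k, htop⟩

/-- removing the last letter as a derivation -/
noncomputable def der (D : ShData ℕ) (a : ℕ) : Derivation ℚ D.Rg D.Rg where
  toLinearMap := (rem a : V ℕ →ₗ[ℚ] V ℕ)
  map_one_eq_zero' := rem_nil a
  leibniz' := by
    intro x y
    change rem a (D.sh x y) = D.sh x (rem a y) + D.sh y (rem a x)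
    rw [rem_sh, D.comm y, add_comm]

theorem P4_gen (D : ShData ℕ) : ∃ (J : Type) (x : J → D.Rg),
    Function.Bijective (MvPolynomial.aeval x : MvPolynomial J ℚ →ₐ[ℚ] D.Rg) := by
  have hnt : Nontrivial D.Rg := by
    refine ⟨1, 0, fun h => ?_⟩
    have h3 : (Finsupp.single ([] : List ℕ) (1 : ℚ)) [] = 0 := by
      have : (Finsupp.single ([] : List ℕ) (1 : ℚ) : List ℕ →₀ ℚ) = 0 := h
      rw [this]
      rfl
    rw [Finsupp.single_eq_same] at h3
    exact one_ne_zero h3
  obtain ⟨J, d, x, -, hbij⟩ := leray (A := D.Rg) (fun n => (Gr n : Submodule ℚ (V ℕ)))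
    Gr_internal (e_mem rfl) (fun m n x y hx hy => sh_mem D hx hy) (by
      intro x hx
      refine ⟨DFunLike.coe (F := List ℕ →₀ ℚ) x [], ?_⟩
      rw [Algebra.algebraMap_eq_smul_one]
      refine Finsupp.ext fun w => ?_
      change DFunLike.coe (F := List ℕ →₀ ℚ) x w =
        (DFunLike.coe (F := List ℕ →₀ ℚ) x [] • (Finsupp.single ([] : List ℕ) (1 : ℚ))) w
      rw [Finsupp.smul_apply, Finsupp.single_apply]
      split_ifs with h
      · rw [← h]
        simp
      · rw [smul_zero]
        exact mem_Gr.1 hx w (fun h2 => h (List.length_eq_zero_iff.1 h2).symm))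
    (fun _ : ℕ => 1) (fun _ => one_pos) (der D) (by
      intro a n x hx
      refine mem_Gr.2 fun w hw => ?_
      change DFunLike.coe (F := List ℕ →₀ ℚ) (rem a x) w = 0
      rw [rem_coe]
      exact mem_Gr.1 hx _ (by simpa using hw)) (by
      intro a n x hn hx
      have hn0 : n = 0 := by omega
      subst hn0
      refine Finsupp.ext fun w => ?_
      change DFunLike.coe (F := List ℕ →₀ ℚ) (rem a x) w = 0
      rw [rem_coe]
      exact mem_Gr.1 hx _ (by simp)) (by
      intro n hn x hx h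
      have h1 := eq_const x h
      rw [h1]
      have h2 : DFunLike.coe (F := List ℕ →₀ ℚ) x [] = 0 := mem_Gr.1 hx [] (by
        simp
        omega)
      rw [h2]
      exact zero_smul ℚ (e [] : V ℕ))
  exact ⟨J, x, hbij⟩

theorem P4_holds : P4 := P4_gen D0

end Pool.Agent.K4H66.MV
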